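import Pool.Agent.V5helper30.WL.Stm

/-!
# Project WL, job TWO
-/

set_option autoImplicit false

open MvPolynomial

namespace Pool.Agent.V5helper56.WL

open Pool.Agent.Helper720.Pow Pool.Agent.V5helper30.WL

/-- the product of the seven forms `x_0 ± x_1 ± x_2 ± x_3` other than the sum -/
noncomputable def pr7 (K : Type*) [Field K] : MvPolynomial (Fin 4) K :=
  (X 0 + X 1 + X 2 - X 3) * (X 0 + X 1 - X 2 + X 3) * (X 0 - X 1 + X 2 + X 3) *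
  (X 0 + X 1 - X 2 - X 3) * (X 0 - X 1 + X 2 - X 3) * (X 0 - X 1 - X 2 + X 3) *
  (X 0 - X 1 - X 2 - X 3)

theorem pr7_hom (K : Type*) [Field K] : (pr7 K).IsHomogeneous 7 := by
  have h : ∀ i : Fin 4, (X i : MvPolynomial (Fin 4) K).IsHomogeneous 1 := fun i =>
    isHomogeneous_X _ _
  have h1 := ((h 0).add (h 1)).add (h 2) |>.sub (h 3)
  have h2 := ((h 0).add (h 1)).sub (h 2) |>.add (h 3)
  have h3 := ((h 0).sub (h 1)).add (h 2) |>.add (h 3)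
  have h4 := ((h 0).add (h 1)).sub (h 2) |>.sub (h 3)
  have h5 := ((h 0).sub (h 1)).add (h 2) |>.sub (h 3)
  have h6 := ((h 0).sub (h 1)).sub (h 2) |>.add (h 3)
  have h7 := ((h 0).sub (h 1)).sub (h 2) |>.sub (h 3)
  exact (((((h1.mul h2).mul h3).mul h4).mul h5).mul h6).mul h7

theorem el_pr7 (K : Type*) [Field K] : el K 4 * pr7 K =
    ((X 0 ^ 2) ^ 2 + (X 1 ^ 2) ^ 2 + (X 2 ^ 2) ^ 2 + (X 3 ^ 2) ^ 2 - 2 * ((X 0 ^ 2) * (X 1 ^ 2) +
      (X 0 ^ 2) * (X 2 ^ 2) + (X 0 ^ 2) * (X 3 ^ 2) + (X 1 ^ 2) * (X 2 ^ 2) +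
      (X 1 ^ 2) * (X 3 ^ 2) + (X 2 ^ 2) * (X 3 ^ 2))) ^ 2 -
    64 * ((X 0 ^ 2) * (X 1 ^ 2) * (X 2 ^ 2) * (X 3 ^ 2)) := by
  rw [el, Fin.sum_univ_four, pr7]
  ring

theorem two (K : Type*) [Field K] [CharZero K] : S_TWO K := by
  intro k hk hinj
  obtain ⟨m, rfl⟩ : ∃ m, k = m + 4 := ⟨k - 4, by omega⟩
  have hf : (X 0 ^ (2 * m) * pr7 K : MvPolynomial (Fin 4) K).IsHomogeneous (2 * (m + 4) - 1) := by
    have h1 : (X 0 ^ (2 * m) : MvPolynomial (Fin 4) K).IsHomogeneous (2 * m) := by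
      have := (isHomogeneous_X K (0 : Fin 4)).pow (2 * m)
      rwa [one_mul] at this
    have h2 := h1.mul (pr7_hom K)
    have e : 2 * m + 7 = 2 * (m + 4) - 1 := by omega
    rwa [e] at h2
  have hQ : ∀ i : Fin 4, (X i ^ 2 : MvPolynomial (Fin 4) K) ∈
      Ideal.span (Set.range fun j : Fin 4 => (X j : MvPolynomial (Fin 4) K) ^ 2) := fun i =>
    Ideal.subset_span ⟨i, rfl⟩
  set Q := Ideal.span (Set.range fun j : Fin 4 => (X j : MvPolynomial (Fin 4) K) ^ 2) with hQd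
  have hQ2 : ∀ i j : Fin 4, ((X i ^ 2) * (X j ^ 2) : MvPolynomial (Fin 4) K) ∈ Q ^ 2 := fun i j => by
    rw [pow_two Q]; exact Ideal.mul_mem_mul (hQ i) (hQ j)
  have hmem : el K 4 * pr7 K ∈ Q ^ 4 := by
    rw [el_pr7]
    refine Ideal.sub_mem _ ?_ ?_
    · have e : Q ^ 4 = (Q ^ 2) ^ 2 := by rw [← pow_mul]
      rw [e]
      refine Ideal.pow_mem_pow ?_ 2
      refine Ideal.sub_mem _ ?_ ?_
      · have h2 : ∀ i : Fin 4, ((X i ^ 2) ^ 2 : MvPolynomial (Fin 4) K) ∈ Q ^ 2 := fun i =>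
          Ideal.pow_mem_pow (hQ i) 2
        exact Ideal.add_mem _ (Ideal.add_mem _ (Ideal.add_mem _ (h2 0) (h2 1)) (h2 2)) (h2 3)
      · refine Ideal.mul_mem_left _ _ ?_
        exact Ideal.add_mem _ (Ideal.add_mem _ (Ideal.add_mem _ (Ideal.add_mem _
          (Ideal.add_mem _ (hQ2 0 1) (hQ2 0 2)) (hQ2 0 3)) (hQ2 1 2)) (hQ2 1 3)) (hQ2 2 3)
    · refine Ideal.mul_mem_left _ _ ?_
      have e : Q ^ 4 = Q ^ 2 * Q ^ 2 := by rw [← pow_add]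
      rw [e, mul_assoc ((X 0 ^ 2) * (X 1 ^ 2) : MvPolynomial (Fin 4) K)]
      exact Ideal.mul_mem_mul (hQ2 0 1) (hQ2 2 3)
  have hin : el K 4 ^ 1 * (X 0 ^ (2 * m) * pr7 K) ∈ powIdeal K 4 2 (m + 4) := by
    have e : el K 4 ^ 1 * (X 0 ^ (2 * m) * pr7 K) = (X 0 ^ 2) ^ m * (el K 4 * pr7 K) := by
      rw [pow_one, pow_mul]; ring
    rw [e, powIdeal, pow_add]
    exact Ideal.mul_mem_mul (Ideal.pow_mem_pow (hQ 0) m) hmem
  have h0 := eq_zero_of_lt (d := 2) (k := m + 4) (by norm_num) (by omega) hf (hinj _ hf hin)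
  have h1 := congrArg (eval (fun i : Fin 4 => if i = 0 then (1 : K) else 0)) h0
  rw [map_zero, map_mul, map_pow, pr7] at h1
  simp at h1

end Pool.Agent.V5helper56.WL
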